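import Pool.Agent.H72.TR.Stm

/-!
# AVER: averaging over the permutations
-/

set_option autoImplicit false

namespace Pool.Agent.H85.TR

open Finset Pool.Agent.K4H88.Ter Pool.Agent.K4H88.Rounds Pool.Agent.H72.TR

theorem aver : AVER := by
  classical
  intro n w hw i j k hij hik hjk
  have h1 : (({i, j} : Finset (Fin n))ᶜ).card = n - 2 := by
    rw [card_compl, Fintype.card_fin, card_pair hij]
  have h2 : ((univ : Finset (Equiv.Perm (Fin n))) ×ˢ range w).card = n.factorial * w := by
    rw [card_product, card_univ, Fintype.card_perm, Fintype.card_fin, card_range]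
  rw [← h1, ← card_product, ← h2]
  apply card_le_card_of_injOn (fun q => (q.1 * Equiv.swap k q.2, ((q.1 k : Fin n) : ℕ) % w))
  · intro q _
    rw [mem_coe, mem_product]
    exact ⟨mem_univ _, mem_range.2 (Nat.mod_lt _ (by omega))⟩
  · rintro ⟨π, u⟩ hq ⟨π', u'⟩ hq' h
    rw [mem_coe, mem_product, mem_filter, mem_compl, mem_insert, mem_singleton, not_or] at hq hq'
    obtain ⟨⟨-, hE⟩, hu1, hu2⟩ := hq
    obtain ⟨⟨-, hE'⟩, hu1', hu2'⟩ := hq'
    obtain ⟨h3, h4⟩ := Prod.ext_iff.1 h
    simp only at h3 h4 hE hE' hu1 hu2 hu1' hu2'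
    have e1 : ∀ (ρ : Equiv.Perm (Fin n)) (v z : Fin n), z ≠ k → z ≠ v →
        (ρ * Equiv.swap k v) z = ρ z := fun ρ v z hz hz' => by
      rw [Equiv.Perm.mul_apply, Equiv.swap_apply_of_ne_of_ne hz hz']
    have hi : π i = π' i := by
      rw [← e1 π u i hik (Ne.symm hu1), h3, e1 π' u' i hik (Ne.symm hu1')]
    have hj : π j = π' j := by
      rw [← e1 π u j hjk (Ne.symm hu2), h3, e1 π' u' j hjk (Ne.symm hu2')]
    have hk : π k = π' k := by
      rw [hi, hj] at hE
      have h5 : bl w (π k) = bl w (π' k) := by rw [← hE, hE']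
      unfold bl at h5
      apply Fin.ext
      rw [← Nat.div_add_mod (π k : ℕ) w, h5, h4, Nat.div_add_mod]
    have e2 : ∀ (ρ : Equiv.Perm (Fin n)) (v : Fin n), (ρ * Equiv.swap k v) v = ρ k := fun ρ v => by
      rw [Equiv.Perm.mul_apply, Equiv.swap_apply_right]
    have hu : u = u' := by
      apply (π * Equiv.swap k u).injective
      rw [e2, hk, h3, e2]
    subst hu
    have hπ : π = π' := mul_right_cancel h3
    rw [hπ]

end Pool.Agent.H85.TR
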