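import Pool.Agent.H72.TR.Stm

/-!
# LOWER: the lower bound for two rounds
-/

set_option autoImplicit false

namespace Pool.Agent.H85.TR

open Finset Pool.Agent.K4H88.Ter Pool.Agent.K4H88.Rounds Pool.Agent.H72.TR

/-- the constants of the tests of a tree are bounded -/
theorem bound {n : ℕ} (P : (Fin n → ℝ) → Prop) {r : ℕ} (F : RTree n r) :
    Tests P (fun _ => True) F → ∃ S₀ : ℕ, ∀ S : ℕ, S₀ ≤ S → Tests P (fun b => |b| < S) F := by
  classical
  induction F with
  | leaf c => exact fun _ => ⟨0, fun S _ => trivial⟩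
  | round m L b child ih =>
    intro h
    choose S₀ hS₀ using fun σ => ih σ (h.2 σ)
    obtain ⟨S₁, hS₁⟩ : ∃ S₁ : ℕ, ∀ j, |b j| < S₁ := by
      choose s hs using fun j => exists_nat_gt |b j|
      refine ⟨univ.sup s, fun j => (hs j).trans_le ?_⟩
      exact_mod_cast le_sup (f := s) (mem_univ j)
    refine ⟨max (univ.sup S₀) S₁, fun S hS => ⟨fun j => ⟨(h.1 j).1, ?_⟩, fun σ => ?_⟩⟩
    · refine (hS₁ j).trans_le ?_
      exact_mod_cast (le_max_right _ _).trans hS
    · exact hS₀ σ S ((le_sup (f := S₀) (mem_univ σ)).trans ((le_max_left _ _).trans hS))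

theorem val_pos {n : ℕ} {c : Fin n → ℝ} {i j k : Fin n} (hij : i ≠ j) (hik : i ≠ k) (hjk : j ≠ k)
    (h : ∀ u, c u = (if i = u then 1 else 0) + (if j = u then 1 else 0) - (if k = u then 1 else 0))
    (u : Fin n) : (c u = 1 ↔ u = i ∨ u = j) ∧ (c u = -1 ↔ u = k) := by
  rw [h u]
  by_cases h1 : i = u
  · subst h1
    rw [if_pos rfl, if_neg (Ne.symm hij), if_neg (Ne.symm hik)]
    refine ⟨⟨fun _ => Or.inl rfl, fun _ => by norm_num⟩, ⟨fun h => by norm_num at h,
      fun h => absurd h hik⟩⟩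
  · by_cases h2 : j = u
    · subst h2
      rw [if_neg h1, if_pos rfl, if_neg (Ne.symm hjk)]
      refine ⟨⟨fun _ => Or.inr rfl, fun _ => by norm_num⟩, ⟨fun h => by norm_num at h,
        fun h => absurd h hjk⟩⟩
    · by_cases h3 : k = u
      · subst h3
        rw [if_neg h1, if_neg h2, if_pos rfl]
        refine ⟨⟨fun h => by norm_num at h, fun h => ?_⟩, ⟨fun _ => rfl, fun _ => by norm_num⟩⟩
        rcases h with h | h
        · exact absurd h.symm hik
        · exact absurd h.symm hjk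
      · rw [if_neg h1, if_neg h2, if_neg h3]
        refine ⟨⟨fun h => by norm_num at h, fun h => ?_⟩, ⟨fun h => by norm_num at h,
          fun h => absurd h.symm h3⟩⟩
        rcases h with h | h
        · exact absurd h.symm h1
        · exact absurd h.symm h2

theorem val_neg {n : ℕ} {c : Fin n → ℝ} {i j k : Fin n} (hij : i ≠ j) (hik : i ≠ k) (hjk : j ≠ k)
    (h : ∀ u, -c u = (if i = u then 1 else 0) + (if j = u then 1 else 0) - (if k = u then 1 else 0))
    (u : Fin n) : (c u = -1 ↔ u = i ∨ u = j) ∧ (c u = 1 ↔ u = k) := by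
  obtain ⟨h1, h2⟩ := val_pos (c := fun u => -c u) hij hik hjk h u
  constructor
  · rw [← h1]
    constructor
    · intro h; rw [h]; norm_num
    · intro h; linarith
  · rw [← h2]
    constructor
    · intro h; rw [h]
    · intro h; linarith

theorem form_unique {n : ℕ} {c : Fin n → ℝ} {i j k i' j' k' : Fin n} (hij : i ≠ j) (hik : i ≠ k)
    (hjk : j ≠ k) (hij' : i' ≠ j') (hik' : i' ≠ k') (hjk' : j' ≠ k') (h : IsForm c i j k)
    (h' : IsForm c i' j' k') : k = k' ∧ ((i = i' ∧ j = j') ∨ (i = j' ∧ j = i')) := by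
  have key : ∀ (p q : Prop), p → q → p ∧ q := fun _ _ a b => ⟨a, b⟩
  rcases h with h | h <;> rcases h' with h' | h'
  · have v := val_pos hij hik hjk h
    have v' := val_pos hij' hik' hjk' h'
    have h1 : k = k' := (v' k).2.1 ((v k).2.2 rfl)
    have h2 := (v' i).1.1 ((v i).1.2 (Or.inl rfl))
    have h3 := (v' j).1.1 ((v j).1.2 (Or.inr rfl))
    refine ⟨h1, ?_⟩
    rcases h2 with h2 | h2 <;> rcases h3 with h3 | h3
    · exact absurd (h2.trans h3.symm) hij
    · exact Or.inl ⟨h2, h3⟩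
    · exact Or.inr ⟨h2, h3⟩
    · exact absurd (h2.trans h3.symm) hij
  · exfalso
    have v := val_pos hij hik hjk h
    have v' := val_neg hij' hik' hjk' h'
    have h2 := (v' i).2.1 ((v i).1.2 (Or.inl rfl))
    have h3 := (v' j).2.1 ((v j).1.2 (Or.inr rfl))
    exact hij (h2.trans h3.symm)
  · exfalso
    have v := val_neg hij hik hjk h
    have v' := val_pos hij' hik' hjk' h'
    have h2 := (v' i).2.1 ((v i).1.2 (Or.inl rfl))
    have h3 := (v' j).2.1 ((v j).1.2 (Or.inr rfl))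
    exact hij (h2.trans h3.symm)
  · have v := val_neg hij hik hjk h
    have v' := val_neg hij' hik' hjk' h'
    have h1 : k = k' := (v' k).2.1 ((v k).2.2 rfl)
    have h2 := (v' i).1.1 ((v i).1.2 (Or.inl rfl))
    have h3 := (v' j).1.1 ((v j).1.2 (Or.inr rfl))
    refine ⟨h1, ?_⟩
    rcases h2 with h2 | h2 <;> rcases h3 with h3 | h3
    · exact absurd (h2.trans h3.symm) hij
    · exact Or.inl ⟨h2, h3⟩
    · exact Or.inr ⟨h2, h3⟩
    · exact absurd (h2.trans h3.symm) hij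

/-- the places of a hit are different -/
theorem ne_of_In {n w m A B : ℕ} (hA : A < m) (hB : m ≤ B) {i j k : Fin n}
    {π : Equiv.Perm (Fin n)} (h : In w A B (π i) (π j) (π k)) : i ≠ j ∧ i ≠ k ∧ j ≠ k := by
  obtain ⟨h1, h2, h3⟩ := h
  refine ⟨?_, ?_, ?_⟩
  · rintro rfl
    omega
  · rintro rfl
    omega
  · rintro rfl
    omega

open Classical in
/-- the pairs of blocks which are hit by one test -/
noncomputable def hits {n : ℕ} (w m : ℕ) (c : Fin n → ℝ) (π : Equiv.Perm (Fin n)) :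
    Finset (ℕ × ℕ) :=
  (range m ×ˢ Ico m (2 * m)).filter fun q =>
    ∃ i j k, IsForm c i j k ∧ In w q.1 q.2 (π i) (π j) (π k)

theorem mem_hits {n w m : ℕ} {c : Fin n → ℝ} {π : Equiv.Perm (Fin n)} {q : ℕ × ℕ} :
    q ∈ hits w m c π ↔ (q.1 < m ∧ m ≤ q.2 ∧ q.2 < 2 * m) ∧
      ∃ i j k, IsForm c i j k ∧ In w q.1 q.2 (π i) (π j) (π k) := by
  classical
  unfold hits
  rw [mem_filter, mem_product, mem_range, mem_Ico]

theorem hits_card (n w m : ℕ) (c : Fin n → ℝ) (π : Equiv.Perm (Fin n)) :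
    (hits w m c π).card ≤ 1 := by
  rw [card_le_one]
  intro q hq q' hq'
  rw [mem_hits] at hq hq'
  obtain ⟨⟨h1, h2, h3⟩, i, j, k, hf, hin⟩ := hq
  obtain ⟨⟨h1', h2', h3'⟩, i', j', k', hf', hin'⟩ := hq'
  obtain ⟨n1, n2, n3⟩ := ne_of_In h1 h2 hin
  obtain ⟨n1', n2', n3'⟩ := ne_of_In h1' h2' hin'
  obtain ⟨rfl, h | h⟩ := form_unique n1 n2 n3 n1' n2' n3' hf hf'
  · obtain ⟨rfl, rfl⟩ := h
    obtain ⟨a1, a2, a3⟩ := hin
    obtain ⟨b1, b2, b3⟩ := hin'
    exact Prod.ext (a1.symm.trans b1) (a2.symm.trans b2)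
  · obtain ⟨rfl, rfl⟩ := h
    obtain ⟨a1, a2, a3⟩ := hin
    obtain ⟨b1, b2, b3⟩ := hin'
    omega

theorem hits_E (hA : AVER) (n w m : ℕ) (hw : 1 ≤ w) (c : Fin n → ℝ) :
    ∃ E : Finset (Equiv.Perm (Fin n)), E.card * (n - 2) ≤ n.factorial * w ∧
      ∀ π, (hits w m c π).card ≤ if π ∈ E then 1 else 0 := by
  classical
  by_cases hex : ∃ i j k : Fin n, i ≠ j ∧ i ≠ k ∧ j ≠ k ∧ IsForm c i j k
  · obtain ⟨i, j, k, n1, n2, n3, hf⟩ := hex
    refine ⟨_, hA n w hw i j k n1 n2 n3, fun π => ?_⟩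
    split_ifs with h
    · exact hits_card n w m c π
    · rw [Nat.le_zero, card_eq_zero, eq_empty_iff_forall_notMem]
      intro q hq
      rw [mem_hits] at hq
      obtain ⟨⟨h1', h2', h3'⟩, i', j', k', hf', hin'⟩ := hq
      obtain ⟨n1', n2', n3'⟩ := ne_of_In h1' h2' hin'
      apply h
      rw [mem_filter]
      refine ⟨mem_univ _, ?_⟩
      obtain ⟨b1, b2, b3⟩ := hin'
      obtain ⟨rfl, h | h⟩ := form_unique n1 n2 n3 n1' n2' n3' hf hf'
      · obtain ⟨rfl, rfl⟩ := h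
        omega
      · obtain ⟨rfl, rfl⟩ := h
        omega
  · refine ⟨∅, by simp, fun π => ?_⟩
    rw [if_neg (notMem_empty _), Nat.le_zero, card_eq_zero, eq_empty_iff_forall_notMem]
    intro q hq
    rw [mem_hits] at hq
    obtain ⟨⟨h1', h2', h3'⟩, i', j', k', hf', hin'⟩ := hq
    obtain ⟨n1', n2', n3'⟩ := ne_of_In h1' h2' hin'
    exact hex ⟨i', j', k', n1', n2', n3', hf'⟩

open Classical in
/-- the sum over all permutations -/
theorem sum_hit (hA : AVER) (n w m mm : ℕ) (hw : 1 ≤ w) (hn : w ^ 4 + 2 ≤ n)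
    (L : Fin mm → Fin n → ℝ) :
    n.factorial * (w ^ 3 * m ^ 2) ≤ ∑ π : Equiv.Perm (Fin n),
      (mm + w ^ 3 * ((range m ×ˢ Ico m (2 * m)).filter fun q => ¬ Hit w L π q.1 q.2).card) := by
  choose E hE hE' using fun l => hits_E hA n w m hw (L l)
  have h1 : ∀ π : Equiv.Perm (Fin n),
      ((range m ×ˢ Ico m (2 * m)).filter fun q => Hit w L π q.1 q.2).card ≤
        ∑ l, if π ∈ E l then 1 else 0 := by
    intro π
    have h2 : ((range m ×ˢ Ico m (2 * m)).filter fun q => Hit w L π q.1 q.2) ⊆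
        univ.biUnion fun l => hits w m (L l) π := by
      intro q hq
      rw [mem_filter, mem_product, mem_range, mem_Ico] at hq
      obtain ⟨h3, l, h4⟩ := hq
      rw [mem_biUnion]
      exact ⟨l, mem_univ _, mem_hits.2 ⟨h3, h4⟩⟩
    calc _ ≤ (univ.biUnion fun l => hits w m (L l) π).card := card_le_card h2
      _ ≤ ∑ l, (hits w m (L l) π).card := card_biUnion_le
      _ ≤ _ := sum_le_sum fun l _ => hE' l π
  have h2 : (∑ π : Equiv.Perm (Fin n),
      ((range m ×ˢ Ico m (2 * m)).filter fun q => Hit w L π q.1 q.2).card) * (n - 2) ≤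
        mm * (n.factorial * w) := by
    calc _ ≤ (∑ π : Equiv.Perm (Fin n), ∑ l, if π ∈ E l then 1 else 0) * (n - 2) :=
          Nat.mul_le_mul_right _ (sum_le_sum fun π _ => h1 π)
      _ = ∑ l, (E l).card * (n - 2) := by
          rw [sum_comm, sum_mul]
          apply sum_congr rfl
          intro l _
          congr 1
          rw [sum_ite_mem, univ_inter, card_eq_sum_ones]
      _ ≤ ∑ _l : Fin mm, n.factorial * w := sum_le_sum fun l _ => hE l
      _ = mm * (n.factorial * w) := by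
          rw [sum_const, card_univ, Fintype.card_fin, smul_eq_mul]
  have h3 : ∀ π : Equiv.Perm (Fin n),
      ((range m ×ˢ Ico m (2 * m)).filter fun q => Hit w L π q.1 q.2).card +
        ((range m ×ˢ Ico m (2 * m)).filter fun q => ¬ Hit w L π q.1 q.2).card = m ^ 2 := by
    intro π
    rw [card_filter_add_card_filter_not, card_product, card_range, Nat.card_Ico]
    have : 2 * m - m = m := by omega
    rw [this, sq]
  obtain ⟨H, hH⟩ : ∃ H, H = ∑ π : Equiv.Perm (Fin n),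
      ((range m ×ˢ Ico m (2 * m)).filter fun q => Hit w L π q.1 q.2).card := ⟨_, rfl⟩
  obtain ⟨N, hN⟩ : ∃ N, N = ∑ π : Equiv.Perm (Fin n),
      ((range m ×ˢ Ico m (2 * m)).filter fun q => ¬ Hit w L π q.1 q.2).card := ⟨_, rfl⟩
  have h4 : H + N = n.factorial * m ^ 2 := by
    rw [hH, hN, ← sum_add_distrib, sum_congr rfl fun π _ => h3 π, sum_const, card_univ,
      Fintype.card_perm, Fintype.card_fin, smul_eq_mul]
  have h5 : ∑ π : Equiv.Perm (Fin n),
      (mm + w ^ 3 * ((range m ×ˢ Ico m (2 * m)).filter fun q => ¬ Hit w L π q.1 q.2).card) =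
      n.factorial * mm + w ^ 3 * N := by
    rw [sum_add_distrib, sum_const, card_univ, Fintype.card_perm, Fintype.card_fin, smul_eq_mul,
      ← mul_sum, hN]
  rw [h5]
  rw [← hH] at h2
  have hw4 : 1 ≤ w ^ 4 := Nat.one_le_pow _ _ hw
  have h6 : w ^ 3 * H ≤ n.factorial * mm := by
    have h7 : w ^ 3 * H * (n - 2) ≤ n.factorial * mm * (n - 2) := by
      calc w ^ 3 * H * (n - 2) = w ^ 3 * (H * (n - 2)) := by ring
        _ ≤ w ^ 3 * (mm * (n.factorial * w)) := Nat.mul_le_mul_left _ h2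
        _ = n.factorial * mm * w ^ 4 := by ring
        _ ≤ n.factorial * mm * (n - 2) := Nat.mul_le_mul_left _ (by omega)
    exact Nat.le_of_mul_le_mul_right h7 (by omega)
  calc n.factorial * (w ^ 3 * m ^ 2) = w ^ 3 * (H + N) := by rw [h4]; ring
    _ = w ^ 3 * H + w ^ 3 * N := by ring
    _ ≤ n.factorial * mm + w ^ 3 * N := Nat.add_le_add_right h6 _

theorem no_sum {n : ℕ} {x : Fin n → ℤ} (h : ¬ HasSum3 x) (π : Equiv.Perm (Fin n)) :
    ¬ HasSum3 (x ∘ π) := by
  rintro ⟨i, j, k, h1, h2, h3, h4⟩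
  exact h ⟨π i, π j, π k, fun h => h1 (π.injective h), fun h => h2 (π.injective h),
    fun h => h3 (π.injective h), h4⟩

theorem lower (hI : INST) (hS : SECOND) (hA : AVER) : LOWER := by
  classical
  intro n w m hw h3 hn Ω _ μ hμ0 hμ1 F T hF hF1 hT
  rcases Nat.eq_zero_or_pos m with hm | hm
  · subst hm
    obtain ⟨x, hx, hx', -⟩ := hI n w 0 1 hw (by omega) le_rfl
    have h1 := hT x hx hx'
    have h2 : 0 ≤ ∑ ω, μ ω * ((F ω).cost x : ℝ) :=
      sum_nonneg fun ω _ => mul_nonneg (hμ0 ω) (Nat.cast_nonneg _)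
    norm_num
    linarith
  · choose S₀ hS₀ using fun ω => bound ThreeTerms (F ω) (hF ω)
    obtain ⟨S, hSd⟩ : ∃ S, S = max (univ.sup S₀) 1 := ⟨_, rfl⟩
    have hS1 : 1 ≤ S := by
      rw [hSd]
      exact le_max_right _ _
    have hS2 : ∀ ω, Tests ThreeTerms (fun b => |b| < S) (F ω) := fun ω =>
      hS₀ ω S (by
        rw [hSd]
        exact (le_sup (f := S₀) (mem_univ ω)).trans (le_max_left _ _))
    obtain ⟨x, hx, hx', hsec⟩ := hS n w m S hw h3 hm hS1
    have hω : ∀ ω, (n.factorial : ℝ) * (w ^ 3 * m ^ 2) ≤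
        ∑ π : Equiv.Perm (Fin n), ((F ω).cost (x ∘ π) : ℝ) := by
      intro ω
      obtain ⟨mm, L, -, hL⟩ := hsec (F ω) (hS2 ω) (hF1 ω)
      have h4 := sum_hit hA n w m mm hw hn L
      have h5 : n.factorial * (w ^ 3 * m ^ 2) ≤ ∑ π : Equiv.Perm (Fin n), (F ω).cost (x ∘ π) :=
        h4.trans (sum_le_sum fun π _ => hL π)
      exact_mod_cast h5
    have hsum : ∑ π : Equiv.Perm (Fin n), ∑ ω, μ ω * ((F ω).cost (x ∘ π) : ℝ) ≤
        n.factorial * T := by
      calc _ ≤ ∑ _π : Equiv.Perm (Fin n), T :=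
            sum_le_sum fun π _ => hT _ (hx.comp π.injective) (no_sum hx' π)
        _ = n.factorial * T := by
            rw [sum_const, card_univ, Fintype.card_perm, Fintype.card_fin, nsmul_eq_mul]
    have hlow : (n.factorial : ℝ) * (w ^ 3 * m ^ 2) ≤
        ∑ π : Equiv.Perm (Fin n), ∑ ω, μ ω * ((F ω).cost (x ∘ π) : ℝ) := by
      rw [sum_comm]
      calc (n.factorial : ℝ) * (w ^ 3 * m ^ 2)
          = ∑ ω, μ ω * ((n.factorial : ℝ) * (w ^ 3 * m ^ 2)) := by
            rw [← sum_mul, hμ1, one_mul]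
        _ ≤ ∑ ω, ∑ π : Equiv.Perm (Fin n), μ ω * ((F ω).cost (x ∘ π) : ℝ) := by
            apply sum_le_sum
            intro ω _
            rw [← mul_sum]
            exact mul_le_mul_of_nonneg_left (hω ω) (hμ0 ω)
    have hfac : (0 : ℝ) < n.factorial := by exact_mod_cast n.factorial_pos
    exact le_of_mul_le_mul_left (hlow.trans hsum) hfac

end Pool.Agent.H85.TR
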