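import Pool.Agent.H72.TR.Stm2
import Pool.Agent.H85.TR.Lower
import Pool.Agent.H85.TR.Aver

/-!
# HITS: averaging over the permutations
-/

set_option autoImplicit false

namespace Pool.Agent.H85.TR

open Finset Pool.Agent.K4H88.Ter Pool.Agent.K4H88.Rounds Pool.Agent.H72.TR

theorem block_card (n w A : ℕ) (hw : 1 ≤ w) :
    ((univ : Finset (Fin n)).filter fun p => bl w p = A).card ≤ w := by
  have h : ((univ : Finset (Fin n)).filter fun p => bl w p = A).card ≤ (range w).card := by
    apply card_le_card_of_injOn (fun p : Fin n => (p : ℕ) % w)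
    · intro p _
      exact mem_coe.2 (mem_range.2 (Nat.mod_lt _ (by omega)))
    · intro p hp p' hp' h
      rw [mem_coe, mem_filter] at hp hp'
      have h1 : (p : ℕ) / w = (p' : ℕ) / w := hp.2.trans hp'.2.symm
      simp only at h
      apply Fin.ext
      rw [← Nat.div_add_mod (p : ℕ) w, h1, h, Nat.div_add_mod]
  rwa [card_range] at h

open Classical in
theorem hits_le_box (n w m : ℕ) (hw : 1 ≤ w) {mm : ℕ} (L : Fin mm → Fin n → ℝ)
    (π : Equiv.Perm (Fin n)) :
    H72.TR.hits n w m L π ≤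
      w ^ 3 * ((range m ×ˢ Ico m (2 * m)).filter fun q => Hit w L π q.1 q.2).card := by
  unfold H72.TR.hits
  obtain ⟨f, hf⟩ : ∃ f : Fin n × Fin n × Fin n → ℕ × ℕ, f = fun t => (bl w t.1, bl w t.2.1) :=
    ⟨_, rfl⟩
  obtain ⟨s, hs⟩ : ∃ s, s = (Tri n w m).filter
    fun t : Fin n × Fin n × Fin n => Hit w L π (bl w t.1) (bl w t.2.1) := ⟨_, rfl⟩
  rw [← hs]
  have h1 : s.card ≤ w ^ 3 * (s.image f).card := by
    apply card_le_mul_card_image
    intro a _
    have h2 : (s.filter fun t => f t = a) ⊆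
        ((univ : Finset (Fin n)).filter fun p => bl w p = a.1) ×ˢ
          (((univ : Finset (Fin n)).filter fun p => bl w p = a.2) ×ˢ
            ((univ : Finset (Fin n)).filter fun p => bl w p = a.1 + a.2 + 1)) := by
      intro t ht
      rw [mem_filter, hs, mem_filter] at ht
      obtain ⟨⟨h3, -⟩, h4⟩ := ht
      unfold Tri at h3
      rw [mem_filter] at h3
      rw [hf] at h4
      have h5 := congrArg Prod.fst h4
      have h6 := congrArg Prod.snd h4
      simp only at h5 h6
      rw [mem_product, mem_product, mem_filter, mem_filter, mem_filter]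
      refine ⟨⟨mem_univ _, h5⟩, ⟨mem_univ _, h6⟩, mem_univ _, ?_⟩
      rw [h3.2.2.2.2, h5, h6]
    calc _ ≤ _ := card_le_card h2
      _ ≤ w * (w * w) := by
        rw [card_product, card_product]
        exact Nat.mul_le_mul (block_card n w _ hw)
          (Nat.mul_le_mul (block_card n w _ hw) (block_card n w _ hw))
      _ = w ^ 3 := by ring
  refine h1.trans (Nat.mul_le_mul_left _ (card_le_card ?_))
  intro q hq
  rw [mem_image] at hq
  obtain ⟨t, ht, rfl⟩ := hq
  rw [hs, mem_filter] at ht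
  obtain ⟨h3, h4⟩ := ht
  unfold Tri at h3
  rw [mem_filter] at h3
  rw [mem_filter, mem_product, mem_range, mem_Ico, hf]
  exact ⟨⟨h3.2.1, h3.2.2.1, h3.2.2.2.1⟩, h4⟩

theorem hits_le : HITS := by
  classical
  intro n w m hw hn mm L
  choose E hE hE' using fun l => hits_E aver n w m hw (L l)
  have h1 : ∀ π : Equiv.Perm (Fin n),
      ((range m ×ˢ Ico m (2 * m)).filter fun q => Hit w L π q.1 q.2).card ≤
        ∑ l, if π ∈ E l then 1 else 0 := by
    intro π
    have h2 : ((range m ×ˢ Ico m (2 * m)).filter fun q => Hit w L π q.1 q.2) ⊆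
        univ.biUnion fun l => hits w m (L l) π := by
      intro q hq
      rw [mem_filter, mem_product, mem_range, mem_Ico] at hq
      obtain ⟨h3, l, h4⟩ := hq
      rw [mem_biUnion]
      exact ⟨l, mem_univ _, mem_hits.2 ⟨h3, h4⟩⟩
    calc _ ≤ (univ.biUnion fun l => hits w m (L l) π).card := card_le_card h2
      _ ≤ ∑ l, (hits w m (L l) π).card := card_biUnion_le
      _ ≤ _ := sum_le_sum fun l _ => hE' l π
  have h2 : (∑ π : Equiv.Perm (Fin n),
      ((range m ×ˢ Ico m (2 * m)).filter fun q => Hit w L π q.1 q.2).card) * (n - 2) ≤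
        mm * (n.factorial * w) := by
    calc _ ≤ (∑ π : Equiv.Perm (Fin n), ∑ l, if π ∈ E l then 1 else 0) * (n - 2) :=
          Nat.mul_le_mul_right _ (sum_le_sum fun π _ => h1 π)
      _ = ∑ l, (E l).card * (n - 2) := by
          rw [sum_comm, sum_mul]
          apply sum_congr rfl
          intro l _
          congr 1
          rw [sum_ite_mem, univ_inter, card_eq_sum_ones]
      _ ≤ ∑ _l : Fin mm, n.factorial * w := sum_le_sum fun l _ => hE l
      _ = mm * (n.factorial * w) := by
          rw [sum_const, card_univ, Fintype.card_fin, smul_eq_mul]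
  obtain ⟨H, hH⟩ : ∃ H, H = ∑ π : Equiv.Perm (Fin n),
      ((range m ×ˢ Ico m (2 * m)).filter fun q => Hit w L π q.1 q.2).card := ⟨_, rfl⟩
  rw [← hH] at h2
  have hw4 : 1 ≤ w ^ 4 := Nat.one_le_pow _ _ hw
  have h6 : w ^ 3 * H ≤ mm * n.factorial := by
    have h7 : w ^ 3 * H * (n - 2) ≤ mm * n.factorial * (n - 2) := by
      calc w ^ 3 * H * (n - 2) = w ^ 3 * (H * (n - 2)) := by ring
        _ ≤ w ^ 3 * (mm * (n.factorial * w)) := Nat.mul_le_mul_left _ h2
        _ = mm * n.factorial * w ^ 4 := by ring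
        _ ≤ mm * n.factorial * (n - 2) := Nat.mul_le_mul_left _ (by omega)
    exact Nat.le_of_mul_le_mul_right h7 (by omega)
  calc ∑ π : Equiv.Perm (Fin n), H72.TR.hits n w m L π
      ≤ ∑ π : Equiv.Perm (Fin n), w ^ 3 *
        ((range m ×ˢ Ico m (2 * m)).filter fun q => Hit w L π q.1 q.2).card :=
        sum_le_sum fun π _ => hits_le_box n w m hw L π
    _ = w ^ 3 * H := by rw [← mul_sum, hH]
    _ ≤ mm * n.factorial := h6

end Pool.Agent.H85.TR
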