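import Pool.Agent.H72.TR.Stm3
import Pool.Agent.H85.TR.Hits

/-!
# HITS3: averaging over the shift
-/

set_option autoImplicit false

namespace Pool.Agent.H85.TR

open Finset Pool.Agent.K4H88.Ter Pool.Agent.K4H88.Rounds Pool.Agent.H72.TR

section shift

variable {n g w s : ℕ}

theorem Us_low (hw : 1 ≤ w) {p : Fin n} (h : p.1 < 2 * g * w) :
    Us n g w s p = g + p.1 / w ∧ p.1 / w < 2 * g := by
  constructor
  · unfold Us
    rw [if_pos h]
  · exact (Nat.div_lt_iff_lt_mul (by omega)).2 h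

theorem Us_lt (hw : 1 ≤ w) {p : Fin n} (h : Us n g w s p < 3 * g) :
    p.1 < 2 * g * w ∧ Us n g w s p = g + p.1 / w := by
  by_cases h1 : p.1 < 2 * g * w
  · exact ⟨h1, (Us_low hw h1).1⟩
  · exfalso
    unfold Us at h
    rw [if_neg h1] at h
    split_ifs at h with h2
    · omega
    · have h3 := Nat.le_add_right (3 * g + 1) ((p.1 - 2 * g * w - s) / w)
      omega

theorem Us_ge (hw : 1 ≤ w) {p : Fin n} (h : 3 * g + 1 ≤ Us n g w s p) :
    2 * g * w + s ≤ p.1 ∧ Us n g w s p = 3 * g + 1 + (p.1 - 2 * g * w - s) / w := by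
  by_cases h1 : p.1 < 2 * g * w
  · exfalso
    have h2 := Us_low (s := s) hw h1
    omega
  · by_cases h3 : p.1 < 2 * g * w + s
    · exfalso
      unfold Us at h
      rw [if_neg h1, if_pos h3] at h
      omega
    · refine ⟨by omega, ?_⟩
      unfold Us
      rw [if_neg h1, if_neg h3]

/-- the places of a hit -/
theorem places (hw : 1 ≤ w) {t : Fin n × Fin n × Fin n} (ht : t ∈ Tr n g w s) {i j k : Fin n}
    (h : InU (Us n g w s) (Us n g w s t.1) (Us n g w s t.2.1) i j k) :
    (i.1 < g * w ∧ g * w ≤ j.1 ∧ j.1 < 2 * g * w ∧ 2 * g * w ≤ k.1) ∧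
      (t.1.1 / w = i.1 / w ∧ t.2.1.1 / w = j.1 / w) ∧
      (2 * g * w + s ≤ k.1 ∧ (k.1 - 2 * g * w - s) / w + g = i.1 / w + j.1 / w) ∧
      (2 * g * w + s ≤ t.2.2.1 ∧ (t.2.2.1 - 2 * g * w - s) / w + g = i.1 / w + j.1 / w) := by
  unfold Tr at ht
  rw [mem_filter] at ht
  obtain ⟨-, h1, h2, h3, h4⟩ := ht
  obtain ⟨e1, e2, e3⟩ := h
  have hw0 : 0 < w := hw
  have a1 : t.1.1 < 2 * g * w := by
    rw [mul_assoc]
    omega
  obtain ⟨b1, -⟩ := Us_low (s := s) hw a1
  obtain ⟨b2, c2⟩ := Us_low (s := s) hw h3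
  have c1 : t.1.1 / w < g := (Nat.div_lt_iff_lt_mul hw0).2 h1
  have c3 : g ≤ t.2.1.1 / w := (Nat.le_div_iff_mul_le hw0).2 h2
  have z1 := Nat.le_add_right g (t.1.1 / w)
  obtain ⟨i1, i2⟩ := Us_lt hw (p := i) (g := g) (s := s) (by omega)
  obtain ⟨j1, j2⟩ := Us_lt hw (p := j) (g := g) (s := s) (by omega)
  obtain ⟨k1, k2⟩ := Us_ge hw (p := k) (g := g) (s := s) (by omega)
  obtain ⟨t1, t2⟩ := Us_ge hw (p := t.2.2) (g := g) (s := s) (by omega)
  have i3 : i.1 < g * w := (Nat.div_lt_iff_lt_mul hw0).1 (by omega)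
  have j3 : g * w ≤ j.1 := (Nat.le_div_iff_mul_le hw0).1 (by omega)
  refine ⟨⟨i3, j3, j1, by omega⟩, ⟨by omega, by omega⟩, ⟨k1, by omega⟩, ⟨t1, by omega⟩⟩

theorem far_card (n w a c : ℕ) (hw : 1 ≤ w) :
    ((univ : Finset (Fin n)).filter fun p => a ≤ p.1 ∧ (p.1 - a) / w = c).card ≤ w := by
  have h : ((univ : Finset (Fin n)).filter fun p => a ≤ p.1 ∧ (p.1 - a) / w = c).card ≤
      (range w).card := by
    apply card_le_card_of_injOn (fun p : Fin n => (p.1 - a) % w)
    · intro p _
      exact mem_coe.2 (mem_range.2 (Nat.mod_lt _ (by omega)))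
    · intro p hp p' hp' h
      rw [mem_coe, mem_filter] at hp hp'
      simp only at h
      have h1 : p.1 - a = p'.1 - a := by
        rw [← Nat.div_add_mod (p.1 - a) w, ← Nat.div_add_mod (p'.1 - a) w, hp.2.2, hp'.2.2, h]
      exact Fin.ext (by omega)
  rwa [card_range] at h

theorem shift_card (w a c : ℕ) (hw : 1 ≤ w) :
    ((range (a + 1)).filter fun s => (a - s) / w = c).card ≤ w := by
  have h : ((range (a + 1)).filter fun s => (a - s) / w = c).card ≤ (range w).card := by
    apply card_le_card_of_injOn (fun s => (a - s) % w)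
    · intro s _
      exact mem_coe.2 (mem_range.2 (Nat.mod_lt _ (by omega)))
    · intro s hs s' hs' h
      rw [mem_coe, mem_filter, mem_range] at hs hs'
      simp only at h
      have h1 : a - s = a - s' := by
        rw [← Nat.div_add_mod (a - s) w, ← Nat.div_add_mod (a - s') w, hs.2, hs'.2, h]
      omega
  rwa [card_range] at h

end shift

open Classical in
/-- one form -/
theorem one_form (n g w : ℕ) (hw : 1 ≤ w) (c : Fin n → ℝ) : ∃ E : Finset ℕ, E.card ≤ w ∧ ∀ s,
    ((Tr n g w s).filter fun t : Fin n × Fin n × Fin n => ∃ i j k, IsForm c i j k ∧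
      InU (Us n g w s) (Us n g w s t.1) (Us n g w s t.2.1) i j k).card ≤
        if s ∈ E then w ^ 3 else 0 := by
  by_cases hex : ∃ i j k : Fin n, (i.1 < g * w ∧ g * w ≤ j.1 ∧ j.1 < 2 * g * w ∧
      2 * g * w ≤ k.1) ∧ IsForm c i j k
  · obtain ⟨i, j, k, ⟨q1, q2, q3, q4⟩, hf⟩ := hex
    have n1 : i ≠ j := fun h => by rw [h] at q1; omega
    have n2 : i ≠ k := fun h => by rw [← h] at q4; omega
    have n3 : j ≠ k := fun h => by rw [← h] at q4; omega
    refine ⟨(range (k.1 - 2 * g * w + 1)).filter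
      fun s => (k.1 - 2 * g * w - s) / w = i.1 / w + j.1 / w - g, shift_card w _ _ hw, ?_⟩
    intro s
    have key : ∀ t ∈ Tr n g w s, (∃ i j k, IsForm c i j k ∧
        InU (Us n g w s) (Us n g w s t.1) (Us n g w s t.2.1) i j k) →
        InU (Us n g w s) (Us n g w s t.1) (Us n g w s t.2.1) i j k := by
      rintro t ht ⟨i', j', k', hf', hin⟩
      obtain ⟨⟨r1, r2, r3, r4⟩, -⟩ := places hw ht hin
      have m1 : i' ≠ j' := fun h => by rw [h] at r1; omega
      have m2 : i' ≠ k' := fun h => by rw [← h] at r4; omega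
      have m3 : j' ≠ k' := fun h => by rw [← h] at r4; omega
      obtain ⟨rfl, h | h⟩ := form_unique n1 n2 n3 m1 m2 m3 hf hf'
      · obtain ⟨rfl, rfl⟩ := h
        exact hin
      · obtain ⟨rfl, rfl⟩ := h
        omega
    split_ifs with hs
    · have h2 : ((Tr n g w s).filter fun t : Fin n × Fin n × Fin n => ∃ i j k, IsForm c i j k ∧
          InU (Us n g w s) (Us n g w s t.1) (Us n g w s t.2.1) i j k) ⊆
          ((univ : Finset (Fin n)).filter fun p => bl w p = i.1 / w) ×ˢ
            (((univ : Finset (Fin n)).filter fun p => bl w p = j.1 / w) ×ˢ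
              ((univ : Finset (Fin n)).filter fun p => 2 * g * w + s ≤ p.1 ∧
                (p.1 - (2 * g * w + s)) / w = i.1 / w + j.1 / w - g)) := by
        intro t ht
        rw [mem_filter] at ht
        obtain ⟨-, ⟨u1, u2⟩, -, ⟨v1, v2⟩⟩ := places hw ht.1 (key t ht.1 ht.2)
        rw [mem_product, mem_product, mem_filter, mem_filter, mem_filter]
        refine ⟨⟨mem_univ _, u1⟩, ⟨mem_univ _, u2⟩, mem_univ _, v1, ?_⟩
        rw [← Nat.sub_sub]
        exact Nat.eq_sub_of_add_eq v2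
      calc _ ≤ _ := card_le_card h2
        _ ≤ w * (w * w) := by
          rw [card_product, card_product]
          exact Nat.mul_le_mul (block_card n w _ hw)
            (Nat.mul_le_mul (block_card n w _ hw) (far_card n w _ _ hw))
        _ = w ^ 3 := by ring
    · rw [Nat.le_zero, card_eq_zero, eq_empty_iff_forall_notMem]
      intro t ht
      rw [mem_filter] at ht
      obtain ⟨-, -, ⟨v1, v2⟩, -⟩ := places hw ht.1 (key t ht.1 ht.2)
      apply hs
      rw [mem_filter, mem_range]
      constructor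
      · omega
      · exact Nat.eq_sub_of_add_eq v2
  · refine ⟨∅, by simp, fun s => ?_⟩
    rw [if_neg (notMem_empty _), Nat.le_zero, card_eq_zero, eq_empty_iff_forall_notMem]
    intro t ht
    rw [mem_filter] at ht
    obtain ⟨ht, i, j, k, hf, hin⟩ := ht
    exact hex ⟨i, j, k, (places hw ht hin).1, hf⟩

theorem hits3 : HITS3 := by
  classical
  intro n g w hw hg hn hwg mm L
  choose E hE hE' using fun l => one_form n g w hw (L l)
  have h1 : ∀ s, hitsU n g w s L ≤ ∑ l, if s ∈ E l then w ^ 3 else 0 := by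
    intro s
    have h2 : ((Tr n g w s).filter fun t : Fin n × Fin n × Fin n =>
        HitU (Us n g w s) L (Us n g w s t.1) (Us n g w s t.2.1)) ⊆
        univ.biUnion fun l => (Tr n g w s).filter fun t : Fin n × Fin n × Fin n =>
          ∃ i j k, IsForm (L l) i j k ∧
            InU (Us n g w s) (Us n g w s t.1) (Us n g w s t.2.1) i j k := by
      intro t ht
      rw [mem_filter] at ht
      obtain ⟨h3, l, h4⟩ := ht
      rw [mem_biUnion]
      exact ⟨l, mem_univ _, mem_filter.2 ⟨h3, h4⟩⟩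
    unfold hitsU
    calc _ ≤ _ := card_le_card h2
      _ ≤ _ := card_biUnion_le
      _ ≤ _ := sum_le_sum fun l _ => hE' l s
  calc ∑ s ∈ range (g * w), hitsU n g w s L
      ≤ ∑ s ∈ range (g * w), ∑ l, (if s ∈ E l then w ^ 3 else 0) := sum_le_sum fun s _ => h1 s
    _ = ∑ l, ∑ s ∈ range (g * w), (if s ∈ E l then w ^ 3 else 0) := sum_comm
    _ ≤ ∑ _l : Fin mm, g * w := by
        apply sum_le_sum
        intro l _
        rw [← sum_filter, sum_const, smul_eq_mul]
        have h3 : ((range (g * w)).filter fun s => s ∈ E l).card ≤ w := by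
          refine (card_le_card ?_).trans (hE l)
          intro s hs
          exact (mem_filter.1 hs).2
        calc _ ≤ w * g := Nat.mul_le_mul h3 hwg
          _ = g * w := mul_comm _ _
    _ = mm * (g * w) := by rw [sum_const, card_univ, Fintype.card_fin, smul_eq_mul]

end Pool.Agent.H85.TR
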