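import Pool.Agent.H72.TR.Stm

/-!
# PROB: the probability that a triple is tested in a round
-/

set_option autoImplicit false

namespace Pool.Agent.H85.TR

open Finset Pool.Agent.K4H88.Ter Pool.Agent.K4H88.Rounds Pool.Agent.H72.TR

theorem prob : PROB := by
  classical
  intro T _ _ r q hq t A ht i
  obtain ⟨g, hg⟩ : ∃ g : T → Fin (r + 1) → ℝ, ∀ s l, g s l =
      if s = t then (if l = i then 1 else 0) else if s ∈ A then (if i ≤ l then 1 else 0) else 1 :=
    ⟨_, fun _ _ => rfl⟩
  have hind : ∀ ω : T → Fin (r + 1), (if ω t = i ∧ ∀ s ∈ A, i ≤ ω s then (1 : ℝ) else 0) =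
      ∏ s, g s (ω s) := by
    intro ω
    split_ifs with h
    · symm
      apply prod_eq_one
      intro s _
      rw [hg]
      split_ifs with h1 h2 h3 h4
      · rfl
      · exact absurd (h1 ▸ h.1) h2
      · rfl
      · exact absurd (h.2 s h3) h4
      · rfl
    · symm
      by_cases h1 : ω t = i
      · have h2 : ∃ s ∈ A, ¬ i ≤ ω s := by
          by_contra h3
          push Not at h3
          exact h ⟨h1, h3⟩
        obtain ⟨s, hs, hs'⟩ := h2
        apply prod_eq_zero (mem_univ s)
        rw [hg, if_neg, if_pos hs, if_neg hs']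
        rintro rfl
        exact hs' h1.ge
      · apply prod_eq_zero (mem_univ t)
        rw [hg, if_pos rfl, if_neg h1]
  have h1 : ∑ ω : T → Fin (r + 1), (∏ s, q (ω s)) *
      (if ω t = i ∧ ∀ s ∈ A, i ≤ ω s then 1 else 0) = ∏ s, ∑ l, q l * g s l := by
    rw [prod_univ_sum, Fintype.piFinset_univ]
    apply sum_congr rfl
    intro ω _
    rw [hind, ← prod_mul_distrib]
  have hQ : ∑ l, q l * (if i ≤ l then (1 : ℝ) else 0) =
      1 - ∑ l ∈ univ.filter (fun l => l < i), q l := by
    have h0 : 1 - ∑ l ∈ univ.filter (fun l => l < i), q l =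
        ∑ l, q l - ∑ l ∈ univ.filter (fun l => l < i), q l := by rw [hq]
    rw [h0, sum_filter, ← sum_sub_distrib]
    apply sum_congr rfl
    intro l _
    by_cases h : l < i
    · rw [if_neg (not_le.2 h), if_pos h]
      ring
    · rw [if_pos (not_lt.1 h), if_neg h]
      ring
  have hval : ∀ s, ∑ l, q l * g s l = if s = t then q i else
      if s ∈ A then (1 - ∑ l ∈ univ.filter (fun l => l < i), q l) else 1 := by
    intro s
    by_cases h2 : s = t
    · rw [if_pos h2]
      simp only [hg, if_pos h2, mul_ite, mul_one, mul_zero, sum_ite_eq', mem_univ, if_true]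
    · rw [if_neg h2]
      by_cases h3 : s ∈ A
      · rw [if_pos h3, ← hQ]
        simp only [hg, if_neg h2, if_pos h3]
      · rw [if_neg h3]
        simp only [hg, if_neg h2, if_neg h3, mul_one]
        exact hq
  rw [h1, prod_congr rfl fun s _ => hval s, ← mul_prod_erase univ _ (mem_univ t), if_pos rfl]
  congr 1
  have h4 : ∀ s ∈ univ.erase t, (if s = t then q i else
      if s ∈ A then (1 - ∑ l ∈ univ.filter (fun l => l < i), q l) else 1) =
      if s ∈ A.erase t then (1 - ∑ l ∈ univ.filter (fun l => l < i), q l) else 1 := by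
    intro s hs
    have h5 : s ≠ t := (mem_erase.1 hs).1
    rw [if_neg h5]
    by_cases h6 : s ∈ A
    · rw [if_pos h6, if_pos (mem_erase.2 ⟨h5, h6⟩)]
    · rw [if_neg h6, if_neg (fun h => h6 (mem_erase.1 h).2)]
  rw [prod_congr rfl h4, prod_ite_mem, prod_const]
  congr 1
  rw [inter_eq_right.2 (erase_subset_erase t (subset_univ A)), card_erase_of_mem ht]

end Pool.Agent.H85.TR
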