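import Pool.Agent.H72.TR.Stm4
import Pool.Agent.H72.TR.Tree

/-!
# TREE3: the tree with three rounds
-/

set_option autoImplicit false

namespace Pool.Agent.H85.TR

open Finset Pool.Agent.K4H88.Ter Pool.Agent.K4H88.Rounds Pool.Agent.H72.TR
open Pool.Agent.H72.TR.TreeAux (vl frm frm_sum frm_test sg sign_cast sg_le)

section tree

variable {n : ℕ}

/-- the tests -/
abbrev Tst (n : ℕ) : Type := (Fin n × Fin n) ⊕ (Fin n × Fin n × Fin n)

/-- the forms of the tests in `T` -/
noncomputable def lsT (T : Finset (Tst n)) : Fin T.card → Fin n → ℝ :=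
  fun l => frm (T.equivFin.symm l).1

theorem lsT_eq {T : Finset (Tst n)} {x y : Fin n → ℤ}
    (h : signs (lsT T) (fun _ => 0) y = signs (lsT T) (fun _ => 0) x) {a : Tst n} (ha : a ∈ T) :
    sg y a = sg x a := by
  have h1 := congrFun h (T.equivFin ⟨a, ha⟩)
  unfold Pool.Agent.K4H88.Rounds.signs lsT at h1
  rw [Equiv.symm_apply_apply, frm_sum, frm_sum, sign_cast, sign_cast] at h1
  exact h1

/-- the possible inputs after the tests -/
def nxt (T : Finset (Tst n)) (X : Set (Fin n → ℤ)) (σ : Fin T.card → SignType) :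
    Set (Fin n → ℤ) :=
  {y | y ∈ X ∧ signs (lsT T) (fun _ => 0) y = σ}

theorem nxt_sg {T : Finset (Tst n)} {X : Set (Fin n → ℤ)} {σ : Fin T.card → SignType}
    {x y : Fin n → ℤ} (hx : x ∈ nxt T X σ) (hy : y ∈ nxt T X σ) {a : Tst n} (ha : a ∈ T) :
    sg y a = sg x a :=
  lsT_eq (hy.2.trans hx.2.symm) ha

/-- a round -/
noncomputable def rnd {r : ℕ} (T : Finset (Tst n))
    (child : (Fin T.card → SignType) → RTree n r) : RTree n (r + 1) :=
  RTree.round T.card (lsT T) (fun _ => 0) child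

/-- the tests of the first round -/
def T1 (Q : Finset (Fin n × Fin n × Fin n)) : Finset (Tst n) :=
  (univ : Finset (Fin n × Fin n)).disjSum Q

open Classical in
/-- the tests of the second round -/
noncomputable def T2 (Q : Finset (Fin n × Fin n × Fin n))
    (R : (Fin n × Fin n → Bool) → (Fin n × Fin n × Fin n → Bool) → Finset (Fin n × Fin n × Fin n))
    (X : Set (Fin n → ℤ)) : Finset (Tst n) :=
  if h : X.Nonempty then (∅ : Finset (Fin n × Fin n)).disjSum (R (Ord h.some) (mask Q (Lab h.some)))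
  else ∅

open Classical in
/-- the tests of the third round -/
noncomputable def T3 (X : Set (Fin n → ℤ)) : Finset (Tst n) :=
  (∅ : Finset (Fin n × Fin n)).disjSum
    (univ.filter fun t => ∃ y ∈ X, ∃ z ∈ X, sg y (Sum.inr t) ≠ sg z (Sum.inr t))

/-- the last step -/
noncomputable def bld3 (X : Set (Fin n → ℤ)) : RTree n 1 :=
  rnd (T3 X) fun σ => RTree.leaf (@decide (∃ y ∈ nxt (T3 X) X σ, HasSum3 y) (Classical.dec _))

/-- the last two steps -/
noncomputable def bld2 (Q : Finset (Fin n × Fin n × Fin n))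
    (R : (Fin n × Fin n → Bool) → (Fin n × Fin n × Fin n → Bool) → Finset (Fin n × Fin n × Fin n))
    (X : Set (Fin n → ℤ)) : RTree n 2 :=
  rnd (T2 Q R X) fun σ => bld3 (nxt (T2 Q R X) X σ)

/-- the tree -/
noncomputable def bld1 (Q : Finset (Fin n × Fin n × Fin n))
    (R : (Fin n × Fin n → Bool) → (Fin n × Fin n × Fin n → Bool) → Finset (Fin n × Fin n × Fin n)) :
    RTree n 3 :=
  rnd (T1 Q) fun σ => bld2 Q R (nxt (T1 Q) {y | Function.Injective y} σ)

theorem sg_lt (x : Fin n → ℤ) (i j : Fin n) : x i < x j ↔ sg x (Sum.inl (i, j)) = -1 := by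
  unfold TreeAux.sg TreeAux.vl
  simp only
  rw [sign_eq_neg_one_iff]
  omega

theorem sg_pos (x : Fin n → ℤ) (t : Fin n × Fin n × Fin n) :
    0 < sm x t ↔ sg x (Sum.inr t) = 1 := by
  unfold TreeAux.sg TreeAux.vl
  simp only
  rw [sign_eq_one_iff]

theorem sg_neg (x : Fin n → ℤ) (t : Fin n × Fin n × Fin n) :
    sm x t < 0 ↔ sg x (Sum.inr t) = -1 := by
  unfold TreeAux.sg TreeAux.vl
  simp only
  rw [sign_eq_neg_one_iff]

theorem sg_zero (x : Fin n → ℤ) (t : Fin n × Fin n × Fin n) :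
    sm x t = 0 ↔ sg x (Sum.inr t) = 0 := by
  unfold TreeAux.sg TreeAux.vl
  simp only
  rw [sign_eq_zero_iff]

variable {Q : Finset (Fin n × Fin n × Fin n)}
  {R : (Fin n × Fin n → Bool) → (Fin n × Fin n × Fin n → Bool) → Finset (Fin n × Fin n × Fin n)}

/-- after the first round the data are known -/
theorem known {X : Set (Fin n → ℤ)} {σ : Fin (T1 Q).card → SignType} {x y : Fin n → ℤ}
    (hx : x ∈ nxt (T1 Q) X σ) (hy : y ∈ nxt (T1 Q) X σ) :
    Ord y = Ord x ∧ mask Q (Lab y) = mask Q (Lab x) := by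
  constructor
  · funext p
    unfold H72.TR.Ord
    have h := nxt_sg hx hy (a := Sum.inl (p.1, p.2)) (inl_mem_disjSum.2 (mem_univ _))
    have h1 : y p.1 < y p.2 ↔ x p.1 < x p.2 := by
      rw [sg_lt, sg_lt, h]
    simp only [h1]
  · funext t
    unfold mask
    split_ifs with ht
    · unfold Lab
      have h := nxt_sg hx hy (a := Sum.inr t) (inr_mem_disjSum.2 ht)
      have h1 : 0 < sm y t ↔ 0 < sm x t := by
        rw [sg_pos, sg_pos, h]
      simp only [h1]
    · rfl

theorem T2_eq {X : Set (Fin n → ℤ)} {σ : Fin (T1 Q).card → SignType} {x : Fin n → ℤ}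
    (hx : x ∈ nxt (T1 Q) X σ) : T2 Q R (nxt (T1 Q) X σ) =
      (∅ : Finset (Fin n × Fin n)).disjSum (R (Ord x) (mask Q (Lab x))) := by
  have hne : (nxt (T1 Q) X σ).Nonempty := ⟨x, hx⟩
  obtain ⟨h1, h2⟩ := known hx hne.some_mem
  unfold T2
  rw [dif_pos hne, h1, h2]

/-- the tests of the third round are undetermined -/
theorem T3_sub {X X1 : Set (Fin n → ℤ)} {σ : Fin (T1 Q).card → SignType}
    {σ2 : Fin (T2 Q R X1).card → SignType} (hX1 : X1 = nxt (T1 Q) X σ) {x : Fin n → ℤ}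
    (hx : x ∈ nxt (T2 Q R X1) X1 σ2) :
    (T3 (nxt (T2 Q R X1) X1 σ2)).card ≤ (Und x (R (Ord x) (mask Q (Lab x)))).card := by
  classical
  unfold T3
  rw [card_disjSum, card_empty, zero_add]
  apply card_le_card
  intro t ht
  rw [mem_filter] at ht
  obtain ⟨-, y, hy, z, hz, hyz⟩ := ht
  unfold Und
  rw [mem_filter]
  refine ⟨mem_univ _, ?_⟩
  intro t' ht' e1 e2
  have hT2 : Sum.inr t' ∈ T2 Q R X1 := by
    subst hX1
    rw [T2_eq hx.1]
    exact inr_mem_disjSum.2 ht'
  have hsg : ∀ w ∈ nxt (T2 Q R X1) X1 σ2, sg w (Sum.inr t') = sg x (Sum.inr t') :=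
    fun w hw => nxt_sg hx hw hT2
  have hc : ∀ u v : Fin n, ∀ w ∈ nxt (T2 Q R X1) X1 σ2, x u ≤ x v → w u ≤ w v := by
    intro u v w hw h
    have hw1 := hw.1
    have hx1 := hx.1
    rw [hX1] at hw1 hx1
    exact sg_le (nxt_sg hx1 hw1 (a := Sum.inl (u, v)) (inl_mem_disjSum.2 (mem_univ _))) h
  constructor
  · rintro ⟨h1, h2⟩
    have key : ∀ w ∈ nxt (T2 Q R X1) X1 σ2, sg w (Sum.inr t) = -1 := by
      intro w hw
      rw [← sg_neg]
      have h3 := hc _ _ w hw h1
      have h4 : sm w t' < 0 := by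
        rw [sg_neg, hsg w hw, ← sg_neg]
        exact h2
      unfold sm at h4 ⊢
      rw [e1, e2] at h4
      omega
    exact hyz ((key y hy).trans (key z hz).symm)
  · rintro ⟨h1, h2⟩
    have key : ∀ w ∈ nxt (T2 Q R X1) X1 σ2, sg w (Sum.inr t) = 1 := by
      intro w hw
      rw [← sg_pos]
      have h3 := hc _ _ w hw h1
      have h4 : 0 < sm w t' := by
        rw [sg_pos, hsg w hw, ← sg_pos]
        exact h2
      unfold sm at h4 ⊢
      rw [e1, e2] at h4
      omega
    exact hyz ((key y hy).trans (key z hz).symm)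

theorem bld3_eval (X : Set (Fin n → ℤ)) {x : Fin n → ℤ} (hx : x ∈ X) :
    (bld3 X).eval x = true ↔ HasSum3 x := by
  classical
  unfold bld3 rnd
  simp only [RTree.eval]
  rw [@decide_eq_true_iff _ (Classical.dec _)]
  have hx3 : x ∈ nxt (T3 X) X (signs (lsT (T3 X)) (fun _ => 0) x) := ⟨hx, rfl⟩
  constructor
  · rintro ⟨y, hy, i, k, l, h1, h2, h3, h4⟩
    refine ⟨i, k, l, h1, h2, h3, ?_⟩
    have h5 : sg y (Sum.inr (i, k, l)) = sg x (Sum.inr (i, k, l)) := by
      by_cases h : Sum.inr (i, k, l) ∈ T3 X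
      · exact nxt_sg hx3 hy h
      · by_contra h6
        apply h
        unfold T3
        rw [inr_mem_disjSum, mem_filter]
        exact ⟨mem_univ _, y, hy.1, x, hx, h6⟩
    have h6 : sm y (i, k, l) = 0 := by
      unfold sm
      simp only
      omega
    rw [sg_zero, h5, ← sg_zero] at h6
    unfold sm at h6
    simp only at h6
    omega
  · intro h
    exact ⟨x, hx3, h⟩

end tree

theorem tree3 : TREE3 := by
  classical
  intro n Q R
  refine ⟨bld1 Q R, ?_, ?_, ?_⟩
  · exact ⟨fun l => ⟨frm_test _, rfl⟩, fun σ => ⟨fun l => ⟨frm_test _, rfl⟩, fun σ =>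
      ⟨fun l => ⟨frm_test _, rfl⟩, fun σ => trivial⟩⟩⟩
  · intro x hx
    unfold bld1 bld2 rnd
    simp only [RTree.eval]
    exact bld3_eval _ ⟨⟨hx, rfl⟩, rfl⟩
  · intro x hx
    obtain ⟨X1, hX1⟩ : ∃ X1, X1 = nxt (T1 Q) {y | Function.Injective y}
      (signs (lsT (T1 Q)) (fun _ => 0) x) := ⟨_, rfl⟩
    have hx1 : x ∈ nxt (T1 Q) {y | Function.Injective y}
      (signs (lsT (T1 Q)) (fun _ => 0) x) := ⟨hx, rfl⟩
    have hx1' : x ∈ X1 := by
      rw [hX1]
      exact hx1
    have hx2 : x ∈ nxt (T2 Q R X1) X1 (signs (lsT (T2 Q R X1)) (fun _ => 0) x) := ⟨hx1', rfl⟩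
    have h1 : (T1 Q).card = n ^ 2 + Q.card := by
      unfold T1
      rw [card_disjSum, card_univ, Fintype.card_prod, Fintype.card_fin, sq]
    have h2 : (T2 Q R X1).card = (R (Ord x) (mask Q (Lab x))).card := by
      rw [hX1, T2_eq hx1, card_disjSum, card_empty, zero_add]
    have h3 := T3_sub hX1 hx2
    have h4 : (bld1 Q R).cost x = (T1 Q).card + ((T2 Q R X1).card +
        ((T3 (nxt (T2 Q R X1) X1 (signs (lsT (T2 Q R X1)) (fun _ => 0) x))).card + 0)) := by
      unfold bld1 bld2 bld3 rnd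
      simp only [RTree.cost]
      rw [← hX1]
    rw [h4]
    omega

end Pool.Agent.H85.TR
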