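import Pool.Agent.H72.TR.Stm5
import Pool.Agent.H85.TR.Tree3

/-!
# TREE5: the tree with five rounds
-/

set_option autoImplicit false

namespace Pool.Agent.H85.TR

open Finset Pool.Agent.K4H88.Ter Pool.Agent.K4H88.Rounds Pool.Agent.H72.TR
open Pool.Agent.H72.TR.TreeAux (vl frm frm_sum frm_test sg sign_cast sg_le)

section tree

variable {n : ℕ}

open Classical in
/-- the tests given by a function of the input -/
noncomputable def TS (S : (Fin n → ℤ) → Finset (Fin n × Fin n × Fin n)) (X : Set (Fin n → ℤ)) :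
    Finset (Tst n) :=
  if h : X.Nonempty then (∅ : Finset (Fin n × Fin n)).disjSum (S h.some) else ∅

theorem TS_eq {S : (Fin n → ℤ) → Finset (Fin n × Fin n × Fin n)} {X : Set (Fin n → ℤ)}
    {x : Fin n → ℤ} (hx : x ∈ X) (hc : ∀ y ∈ X, S y = S x) :
    TS S X = (∅ : Finset (Fin n × Fin n)).disjSum (S x) := by
  have hne : X.Nonempty := ⟨x, hx⟩
  unfold TS
  rw [dif_pos hne, hc _ hne.some_mem]

theorem mask_eq {S : Finset (Fin n × Fin n × Fin n)} {x y : Fin n → ℤ}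
    (h : ∀ t ∈ S, sg y (Sum.inr t) = sg x (Sum.inr t)) : mask S (Lab y) = mask S (Lab x) := by
  funext t
  unfold mask
  split_ifs with ht
  · unfold Lab
    have h1 : 0 < sm y t ↔ 0 < sm x t := by
      rw [sg_pos, sg_pos, h t ht]
    simp only [h1]
  · rfl

/-- the tests of the last round are undetermined -/
theorem T3_le {X : Set (Fin n → ℤ)} {x : Fin n → ℤ} (hx : x ∈ X)
    (ho : ∀ y ∈ X, ∀ i j : Fin n, sg y (Sum.inl (i, j)) = sg x (Sum.inl (i, j)))
    {R : Finset (Fin n × Fin n × Fin n)}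
    (hR : ∀ y ∈ X, ∀ t ∈ R, sg y (Sum.inr t) = sg x (Sum.inr t)) :
    (T3 X).card ≤ (Und x R).card := by
  classical
  unfold T3
  rw [card_disjSum, card_empty, zero_add]
  apply card_le_card
  intro t ht
  rw [mem_filter] at ht
  obtain ⟨-, y, hy, z, hz, hyz⟩ := ht
  unfold Und
  rw [mem_filter]
  refine ⟨mem_univ _, ?_⟩
  intro t' ht' e1 e2
  have hc : ∀ u v : Fin n, ∀ w ∈ X, x u ≤ x v → w u ≤ w v := by
    intro u v w hw h
    exact sg_le (ho w hw u v) h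
  constructor
  · rintro ⟨h1, h2⟩
    have key : ∀ w ∈ X, sg w (Sum.inr t) = -1 := by
      intro w hw
      rw [← sg_neg]
      have h3 := hc _ _ w hw h1
      have h4 : sm w t' < 0 := by
        rw [sg_neg, hR w hw t' ht', ← sg_neg]
        exact h2
      unfold sm at h4 ⊢
      rw [e1, e2] at h4
      omega
    exact hyz ((key y hy).trans (key z hz).symm)
  · rintro ⟨h1, h2⟩
    have key : ∀ w ∈ X, sg w (Sum.inr t) = 1 := by
      intro w hw
      rw [← sg_pos]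
      have h3 := hc _ _ w hw h1
      have h4 : 0 < sm w t' := by
        rw [sg_pos, hR w hw t' ht', ← sg_pos]
        exact h2
      unfold sm at h4 ⊢
      rw [e1, e2] at h4
      omega
    exact hyz ((key y hy).trans (key z hz).symm)

/-- the last two rounds -/
noncomputable def bR (S : (Fin n → ℤ) → Finset (Fin n × Fin n × Fin n)) {r : ℕ}
    (c : Set (Fin n → ℤ) → RTree n r) (X : Set (Fin n → ℤ)) : RTree n (r + 1) :=
  rnd (TS S X) fun σ => c (nxt (TS S X) X σ)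

/-- the tree -/
noncomputable def b5 (Q : Finset (Fin n × Fin n × Fin n))
    (S2 S3 S4 : (Fin n → ℤ) → Finset (Fin n × Fin n × Fin n)) : RTree n 5 :=
  rnd (T1 Q) fun σ => bR S2 (bR S3 (bR S4 bld3)) (nxt (T1 Q) {y | Function.Injective y} σ)

theorem bR_tests {S : (Fin n → ℤ) → Finset (Fin n × Fin n × Fin n)} {r : ℕ}
    {c : Set (Fin n → ℤ) → RTree n r} (hc : ∀ X, Tests SumTest (fun b => b = 0) (c X))
    (X : Set (Fin n → ℤ)) : Tests SumTest (fun b => b = 0) (bR S c X) :=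
  ⟨fun l => ⟨frm_test _, rfl⟩, fun σ => hc _⟩

theorem bld3_tests (X : Set (Fin n → ℤ)) : Tests SumTest (fun b => b = 0) (bld3 X) :=
  ⟨fun l => ⟨frm_test _, rfl⟩, fun σ => trivial⟩

theorem bR_eval {S : (Fin n → ℤ) → Finset (Fin n × Fin n × Fin n)} {r : ℕ}
    {c : Set (Fin n → ℤ) → RTree n r}
    (hc : ∀ X, ∀ x ∈ X, ((c X).eval x = true ↔ HasSum3 x))
    (X : Set (Fin n → ℤ)) : ∀ x ∈ X, ((bR S c X).eval x = true ↔ HasSum3 x) := by
  intro x hx
  unfold bR rnd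
  simp only [RTree.eval]
  exact hc _ x ⟨hx, rfl⟩

theorem bR_cost (S : (Fin n → ℤ) → Finset (Fin n × Fin n × Fin n)) {r : ℕ}
    (c : Set (Fin n → ℤ) → RTree n r) {X : Set (Fin n → ℤ)} {x : Fin n → ℤ} (hx : x ∈ X)
    (hS : ∀ y ∈ X, S y = S x) : ∃ X' : Set (Fin n → ℤ), x ∈ X' ∧ X' ⊆ X ∧
      (∀ y ∈ X', ∀ t ∈ S x, sg y (Sum.inr t) = sg x (Sum.inr t)) ∧
      (bR S c X).cost x = (S x).card + (c X').cost x := by
  have hT := TS_eq hx hS
  refine ⟨nxt (TS S X) X (signs (lsT (TS S X)) (fun _ => 0) x), ⟨hx, rfl⟩, fun y hy => hy.1, ?_, ?_⟩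
  · intro y hy t ht
    refine nxt_sg (x := x) ⟨hx, rfl⟩ hy ?_
    rw [hT]
    exact inr_mem_disjSum.2 ht
  · have hcard : (TS S X).card = (S x).card := by
      rw [hT, card_disjSum, card_empty, zero_add]
    rw [← hcard]
    unfold bR rnd
    simp only [RTree.cost]

theorem bld3_cost {X : Set (Fin n → ℤ)} (x : Fin n → ℤ) : (bld3 X).cost x = (T3 X).card := by
  unfold bld3 rnd
  simp only [RTree.cost, add_zero]

end tree

theorem tree5 : TREE5 := by
  classical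
  intro n Q1 Q2 Q3 Q4
  obtain ⟨S2, hS2⟩ : ∃ S2 : (Fin n → ℤ) → Finset (Fin n × Fin n × Fin n),
    S2 = fun x => Q2 (Ord x) (mask Q1 (Lab x)) := ⟨_, rfl⟩
  obtain ⟨S3, hS3⟩ : ∃ S3 : (Fin n → ℤ) → Finset (Fin n × Fin n × Fin n),
    S3 = fun x => Q3 (Ord x) (mask Q1 (Lab x)) (mask (S2 x) (Lab x)) := ⟨_, rfl⟩
  obtain ⟨S4, hS4⟩ : ∃ S4 : (Fin n → ℤ) → Finset (Fin n × Fin n × Fin n),
    S4 = fun x => Q4 (Ord x) (mask Q1 (Lab x)) (mask (S2 x) (Lab x)) (mask (S3 x) (Lab x)) :=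
    ⟨_, rfl⟩
  refine ⟨b5 Q1 S2 S3 S4, ?_, ?_, ?_⟩
  · exact ⟨fun l => ⟨frm_test _, rfl⟩, fun σ => bR_tests (bR_tests (bR_tests bld3_tests)) _⟩
  · intro x hx
    unfold b5
    rw [rnd]
    simp only [RTree.eval]
    exact bR_eval (bR_eval (bR_eval fun X x hx => bld3_eval X hx)) _ x ⟨hx, rfl⟩
  · intro x hx s2 s3 s4 h2 h3 h4
    have hs2 : s2 = S2 x := by rw [h2, hS2]
    have hs3 : s3 = S3 x := by rw [h3, hs2, hS3]
    have hs4 : s4 = S4 x := by rw [h4, hs2, hs3, hS4]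
    rw [hs2, hs3, hs4]
    obtain ⟨X1, hX1⟩ : ∃ X1, X1 = nxt (T1 Q1) {y | Function.Injective y}
      (signs (lsT (T1 Q1)) (fun _ => 0) x) := ⟨_, rfl⟩
    have hx1 : x ∈ nxt (T1 Q1) {y | Function.Injective y}
      (signs (lsT (T1 Q1)) (fun _ => 0) x) := ⟨hx, rfl⟩
    have hx1' : x ∈ X1 := by
      rw [hX1]
      exact hx1
    have ho : ∀ y ∈ X1, ∀ i j : Fin n, sg y (Sum.inl (i, j)) = sg x (Sum.inl (i, j)) := by
      intro y hy i j
      rw [hX1] at hy
      exact nxt_sg hx1 hy (inl_mem_disjSum.2 (mem_univ _))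
    have hk : ∀ y ∈ X1, Ord y = Ord x ∧ mask Q1 (Lab y) = mask Q1 (Lab x) := by
      intro y hy
      rw [hX1] at hy
      exact known hx1 hy
    have hc2 : ∀ y ∈ X1, S2 y = S2 x := by
      intro y hy
      obtain ⟨k1, k2⟩ := hk y hy
      rw [hS2]
      simp only [k1, k2]
    obtain ⟨X2, hx2, hX21, hg2, hcost2⟩ := bR_cost S2 (bR S3 (bR S4 bld3)) hx1' hc2
    have hm2 : ∀ y ∈ X2, mask (S2 y) (Lab y) = mask (S2 x) (Lab x) := by
      intro y hy
      rw [hc2 y (hX21 hy)]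
      exact mask_eq (hg2 y hy)
    have hc3 : ∀ y ∈ X2, S3 y = S3 x := by
      intro y hy
      obtain ⟨k1, k2⟩ := hk y (hX21 hy)
      rw [hS3]
      simp only [k1, k2, hm2 y hy]
    obtain ⟨X3, hx3, hX32, hg3, hcost3⟩ := bR_cost S3 (bR S4 bld3) hx2 hc3
    have hm3 : ∀ y ∈ X3, mask (S3 y) (Lab y) = mask (S3 x) (Lab x) := by
      intro y hy
      rw [hc3 y (hX32 hy)]
      exact mask_eq (hg3 y hy)
    have hc4 : ∀ y ∈ X3, S4 y = S4 x := by
      intro y hy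
      obtain ⟨k1, k2⟩ := hk y (hX21 (hX32 hy))
      rw [hS4]
      simp only [k1, k2, hm2 y (hX32 hy), hm3 y hy]
    obtain ⟨X4, hx4, hX43, hg4, hcost4⟩ := bR_cost S4 bld3 hx3 hc4
    have hU : (T3 X4).card ≤ (Und x (S3 x ∪ S4 x)).card := by
      apply T3_le hx4 (fun y hy => ho y (hX21 (hX32 (hX43 hy))))
      intro y hy t ht
      rcases mem_union.1 ht with h | h
      · exact hg3 y (hX43 hy) t h
      · exact hg4 y hy t h
    have h1 : (T1 Q1).card = n ^ 2 + Q1.card := by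
      unfold T1
      rw [card_disjSum, card_univ, Fintype.card_prod, Fintype.card_fin, sq]
    have h0 : (b5 Q1 S2 S3 S4).cost x = (T1 Q1).card + (bR S2 (bR S3 (bR S4 bld3)) X1).cost x := by
      unfold b5
      rw [rnd]
      simp only [RTree.cost]
      rw [← hX1]
    rw [h0, hcost2, hcost3, hcost4, bld3_cost, h1]
    omega

end Pool.Agent.H85.TR
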